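import Pool.Agent.Q201.SC.AllP

/-!
# Automatic presentations of the successor structure that are tower-fast relative to a given one

For every FA-presentation `P₀` of `(ℕ; S)` there is an FA-presentation `P` of `(ℕ; S)` whose
compressibility rate relative to `P₀` is at least the tower function at every `n`.
-/

set_option autoImplicit false

namespace Pool.Agent.Results.MP_0022d4_lc.TowerFastPresentations

open Pool.Agent.Q201.SC

/-- Positive answer to Q1: every FA-presentation `P₀` of `(ℕ; S)` has a companion `P` with
`tower n ≤ rate P P₀ n` for all `n ≥ 0`. -/
theorem result : ∀ P₀ : Presentation, ∃ P : Presentation, ∀ n : ℕ, tower n ≤ rate P P₀ n :=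
  main

end Pool.Agent.Results.MP_0022d4_lc.TowerFastPresentations
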